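import Pool.Agent.N590.MS.Fin

set_option autoImplicit false

/-!
# The number of steps and the question
-/

namespace Pool.Agent.N590.MS

open Pool.Agent.H53R3 Pool.Agent.W956.KF Pool.Agent.H522R2
open Pool.Agent.H826R3.SM (omegaMM)

/-- The least number of steps for the product of two generic `m × m` matrices. -/
noncomputable def minSteps (F : Type) [Field F] (m : ℕ) : ℕ := sInf {t | InSteps F m m m t}

variable (F : Type) [Field F] [Infinite F]

theorem minSteps_eq (m : ℕ) : minSteps F m = trank F m m m :=
  (isLeast_steps (F := F) (m := m) (n := m) (p := m)).csInf_eq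

theorem trank_le_three_size (m : ℕ) : trank F m m m ≤ 3 * sizeMM F m := by
  rcases Nat.lt_or_ge m 2 with hm | hm
  · interval_cases m
    · rw [trank_zero]; exact Nat.zero_le _
    · rw [trank_one]
      have := sizeMM_one F
      omega
  · refine le_three hm ?_
    obtain ⟨C, hC, hs⟩ := exists_circuit_MM F m
    have h := trank_le (rank_of_circuit C hC)
    rw [← pow_two] at h
    rw [← hs]
    exact h.trans (Nat.add_le_add_right (mixedSums_le_size C) _)

theorem trank_upper {τ : ℝ} (hτ : omegaMM F < τ) :
    ∃ D : ℝ, ∀ m : ℕ, (trank F m m m : ℝ) ≤ D * (m : ℝ) ^ τ := by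
  obtain ⟨D, hD⟩ := sizeMM_upper hτ
  refine ⟨3 * D, fun m => ?_⟩
  have h1 : (trank F m m m : ℝ) ≤ 3 * sizeMM F m := by exact_mod_cast trank_le_three_size F m
  have h2 := hD m
  linarith [mul_assoc (3 : ℝ) D ((m : ℝ) ^ τ)]

theorem steps_part : growth (minSteps F) = omega F ∧
    (Superlinear (sizeMM F) ↔ Superlinear (minSteps F)) := by
  have e : minSteps F = fun m => trank F m m m := funext (minSteps_eq F)
  rw [e]
  refine ⟨rfl, ?_⟩
  have h1 := superlinear_iff (K := F) (f := sizeMM F) (c := 3) (by norm_num)
    (trank_le_three_size F) fun τ hτ => sizeMM_upper hτ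
  have h2 := superlinear_iff (K := F) (f := fun m => trank F m m m) (c := 1) (by norm_num)
    (fun m => by omega) fun τ hτ => trank_upper F hτ
  exact h1.trans h2.symm

end Pool.Agent.N590.MS
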