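import Pool.Agent.N590.MS.Defs
import Pool.Agent.W956.KF.RatFun

set_option autoImplicit false

/-!
# Derivations of the field of rational functions
-/

namespace Pool.Agent.N590.MS

open Pool.Agent.H53R3 Pool.Agent.W956.KF MvPolynomial

section

variable {K : Type} [Field K] {σ : Type}

theorem aM_eq (c : K) : algebraMap K (FractionRing (MvPolynomial σ K)) c = algebraMap (MvPolynomial σ K) (FractionRing (MvPolynomial σ K)) (C c) :=
  IsScalarTower.algebraMap_apply K (MvPolynomial σ K) (FractionRing (MvPolynomial σ K)) c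

theorem der_of_hom (φ : (MvPolynomial σ K) →+* DualNumber (FractionRing (MvPolynomial σ K))) (hφ : ∀ p, (φ p).fst = algebraMap (MvPolynomial σ K) (FractionRing (MvPolynomial σ K)) p) :
    ∃ D : (FractionRing (MvPolynomial σ K)) → (FractionRing (MvPolynomial σ K)), IsDer D ∧ ∀ p, D (algebraMap (MvPolynomial σ K) (FractionRing (MvPolynomial σ K)) p) = (φ p).snd := by
  have hu : ∀ y : nonZeroDivisors (MvPolynomial σ K), IsUnit (φ y) := by
    intro y
    rw [TrivSqZeroExt.isUnit_iff_isUnit_fst, hφ]
    refine IsUnit.mk0 _ fun h => ?_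
    exact nonZeroDivisors.ne_zero y.2
      ((IsFractionRing.injective (MvPolynomial σ K) (FractionRing (MvPolynomial σ K))) (by rw [h, map_zero]))
  let ψ : (FractionRing (MvPolynomial σ K)) →+* DualNumber (FractionRing (MvPolynomial σ K)) := IsLocalization.lift (M := nonZeroDivisors (MvPolynomial σ K)) hu
  have hψ : ∀ p, ψ (algebraMap (MvPolynomial σ K) (FractionRing (MvPolynomial σ K)) p) = φ p := fun p => IsLocalization.lift_eq _ _
  have hf : ∀ x, (ψ x).fst = x := by
    have h : ((TrivSqZeroExt.fstHom (FractionRing (MvPolynomial σ K)) (FractionRing (MvPolynomial σ K)) (FractionRing (MvPolynomial σ K))).toRingHom.comp ψ) = RingHom.id (FractionRing (MvPolynomial σ K)) := by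
      refine IsLocalization.ringHom_ext (nonZeroDivisors (MvPolynomial σ K)) ?_
      refine RingHom.ext fun p => ?_
      simp only [RingHom.comp_apply, hψ]
      exact hφ p
    exact fun x => congrArg (fun f => f x) h
  refine ⟨fun x => (ψ x).snd, ⟨fun a b => ?_, fun a b => ?_⟩, fun p => ?_⟩
  · simp only [map_add, TrivSqZeroExt.snd_add]
  · simp only [map_mul, TrivSqZeroExt.snd_mul, hf, smul_eq_mul, MulOpposite.smul_eq_mul_unop,
      MulOpposite.unop_op]
    ring
  · simp only [hψ]

/-- the partial derivatives -/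
theorem exists_partial [DecidableEq σ] (i : σ) : ∃ D : (FractionRing (MvPolynomial σ K)) → (FractionRing (MvPolynomial σ K)), IsDer D ∧
    (∀ c : K, D (algebraMap K (FractionRing (MvPolynomial σ K)) c) = 0) ∧ ∀ j, D (gz K σ j) = if j = i then 1 else 0 := by
  let φ : (MvPolynomial σ K) →+* DualNumber (FractionRing (MvPolynomial σ K)) :=
    eval₂Hom ((TrivSqZeroExt.inlHom (FractionRing (MvPolynomial σ K)) (FractionRing (MvPolynomial σ K))).comp (algebraMap K (FractionRing (MvPolynomial σ K))))
      (fun j => TrivSqZeroExt.inl (gz K σ j) + if j = i then DualNumber.eps else 0)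
  have hφ : ∀ p, (φ p).fst = algebraMap (MvPolynomial σ K) (FractionRing (MvPolynomial σ K)) p := by
    have h : ((TrivSqZeroExt.fstHom (FractionRing (MvPolynomial σ K)) (FractionRing (MvPolynomial σ K)) (FractionRing (MvPolynomial σ K))).toRingHom.comp φ) = algebraMap (MvPolynomial σ K) (FractionRing (MvPolynomial σ K)) := by
      refine MvPolynomial.ringHom_ext ?_ ?_
      · intro c
        simp only [φ, RingHom.comp_apply, coe_eval₂Hom, eval₂_C, ← aM_eq]
        simp
      · intro j
        simp only [φ, RingHom.comp_apply, coe_eval₂Hom, eval₂_X]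
        by_cases hj : j = i <;> simp [hj, gz]
    exact fun p => congrArg (fun f => f p) h
  obtain ⟨D, hD, hD'⟩ := der_of_hom φ hφ
  refine ⟨D, hD, fun c => ?_, fun j => ?_⟩
  · rw [aM_eq, hD']
    simp [φ]
  · have : gz K σ j = algebraMap (MvPolynomial σ K) (FractionRing (MvPolynomial σ K)) (X j) := rfl
    rw [this, hD']
    by_cases hj : j = i <;> simp [φ, hj]

/-- derivations of the field of constants extend -/
theorem exists_coeffDer {D₀ : K → K} (h₀ : IsDer D₀) : ∃ D : (FractionRing (MvPolynomial σ K)) → (FractionRing (MvPolynomial σ K)), IsDer D ∧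
    (∀ c : K, D (algebraMap K (FractionRing (MvPolynomial σ K)) c) = algebraMap K (FractionRing (MvPolynomial σ K)) (D₀ c)) ∧ ∀ j, D (gz K σ j) = 0 := by
  let ρ : K →+* DualNumber (FractionRing (MvPolynomial σ K)) :=
    { toFun := fun c => TrivSqZeroExt.inl (algebraMap K (FractionRing (MvPolynomial σ K)) c) +
        TrivSqZeroExt.inr (algebraMap K (FractionRing (MvPolynomial σ K)) (D₀ c))
      map_one' := by simp [h₀.one]
      map_zero' := by simp [h₀.zero]
      map_add' := fun a b => by
        simp only [h₀.add, map_add, TrivSqZeroExt.inl_add, TrivSqZeroExt.inr_add]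
        ring
      map_mul' := fun a b => by
        refine TrivSqZeroExt.ext ?_ ?_
        · simp
        · simp only [h₀.mul, TrivSqZeroExt.snd_add, TrivSqZeroExt.snd_inl, TrivSqZeroExt.snd_inr,
            TrivSqZeroExt.snd_mul, TrivSqZeroExt.fst_add, TrivSqZeroExt.fst_inl,
            TrivSqZeroExt.fst_inr, map_add, map_mul, smul_eq_mul, MulOpposite.smul_eq_mul_unop,
            MulOpposite.unop_op]
          ring }
  let φ : (MvPolynomial σ K) →+* DualNumber (FractionRing (MvPolynomial σ K)) :=
    eval₂Hom ρ (fun j => TrivSqZeroExt.inl (gz K σ j))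
  have hφ : ∀ p, (φ p).fst = algebraMap (MvPolynomial σ K) (FractionRing (MvPolynomial σ K)) p := by
    have h : ((TrivSqZeroExt.fstHom (FractionRing (MvPolynomial σ K)) (FractionRing (MvPolynomial σ K)) (FractionRing (MvPolynomial σ K))).toRingHom.comp φ) = algebraMap (MvPolynomial σ K) (FractionRing (MvPolynomial σ K)) := by
      refine MvPolynomial.ringHom_ext ?_ ?_
      · intro c
        simp only [φ, RingHom.comp_apply, coe_eval₂Hom, eval₂_C, ← aM_eq]
        simp [ρ]
      · intro j
        simp only [φ, RingHom.comp_apply, coe_eval₂Hom, eval₂_X]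
        simp [gz]
    exact fun p => congrArg (fun f => f p) h
  obtain ⟨D, hD, hD'⟩ := der_of_hom φ hφ
  refine ⟨D, hD, fun c => ?_, fun j => ?_⟩
  · rw [aM_eq, hD']
    simp only [φ, ρ, coe_eval₂Hom, eval₂_C, RingHom.coe_mk, MonoidHom.coe_mk, OneHom.coe_mk,
      TrivSqZeroExt.snd_add, TrivSqZeroExt.snd_inl, TrivSqZeroExt.snd_inr, zero_add]
  · have : gz K σ j = algebraMap (MvPolynomial σ K) (FractionRing (MvPolynomial σ K)) (X j) := rfl
    rw [this, hD']
    simp [φ]

/-- uniqueness -/
theorem der_eq_zero {D : (FractionRing (MvPolynomial σ K)) → (FractionRing (MvPolynomial σ K))} (h : IsDer D) (hc : ∀ c : K, D (algebraMap K (FractionRing (MvPolynomial σ K)) c) = 0)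
    (hx : ∀ j, D (gz K σ j) = 0) (x : (FractionRing (MvPolynomial σ K))) : D x = 0 := by
  have h1 : ∀ p : (MvPolynomial σ K), D (algebraMap (MvPolynomial σ K) (FractionRing (MvPolynomial σ K)) p) = 0 := by
    intro p
    induction p using MvPolynomial.induction_on with
    | C a => rw [← aM_eq]; exact hc a
    | add p q hp hq => rw [map_add, h.add, hp, hq, add_zero]
    | mul_X p j hp =>
      rw [map_mul, h.mul, hp, zero_mul, zero_add]
      have : D (algebraMap (MvPolynomial σ K) (FractionRing (MvPolynomial σ K)) (X j)) = 0 := hx j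
      rw [this, mul_zero]
  obtain ⟨r, s, hs0, rfl⟩ := IsFractionRing.div_surjective (A := (MvPolynomial σ K)) x
  have hs : algebraMap (MvPolynomial σ K) (FractionRing (MvPolynomial σ K)) s ≠ 0 := by
    intro h0
    exact nonZeroDivisors.ne_zero hs0 ((IsFractionRing.injective (MvPolynomial σ K) (FractionRing (MvPolynomial σ K))) (by rw [h0, map_zero]))
  have h2 : D (algebraMap (MvPolynomial σ K) (FractionRing (MvPolynomial σ K)) r / algebraMap (MvPolynomial σ K) (FractionRing (MvPolynomial σ K)) s * algebraMap (MvPolynomial σ K) (FractionRing (MvPolynomial σ K)) s) = 0 := by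
    rw [div_mul_cancel₀ _ hs]; exact h1 r
  rw [h.mul, h1, mul_zero, add_zero] at h2
  exact (mul_eq_zero.1 h2).resolve_right hs

theorem IsDer.commutator {E : Type*} [Field E] {D₁ D₂ : E → E} (h₁ : IsDer D₁) (h₂ : IsDer D₂) :
    IsDer (fun x => D₁ (D₂ x) - D₂ (D₁ x)) := by
  refine ⟨fun a b => ?_, fun a b => ?_⟩
  · simp only [h₁.add, h₂.add]; ring
  · simp only [h₁.mul, h₂.mul, h₁.add, h₂.add]; ring

end

end Pool.Agent.N590.MS
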