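import Pool.Agent.N590.MS.Core2
import Pool.Agent.N590.MS.Ders

set_option autoImplicit false

/-!
# Circuits: only the sums count
-/

namespace Pool.Agent.N590.MS

open Pool.Agent.H53R3 Pool.Agent.W956.KF Pool.Agent.H522R2 MvPolynomial

section

variable {K : Type} [Field K] {V : Type} {X Y : Type*}
  {dA : X → FractionRing (MvPolynomial V K) → FractionRing (MvPolynomial V K)}
  {dB : Y → FractionRing (MvPolynomial V K) → FractionRing (MvPolynomial V K)}

/-- the polynomial computed at a node as an element of the field of rational functions -/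
noncomputable def rat (C : Circuit K V) (v : Fin C.nodes) : FractionRing (MvPolynomial V K) :=
  algebraMap (MvPolynomial V K) (FractionRing (MvPolynomial V K)) (C.poly v)

/-- the sums which have to be counted -/
def Cnt (C : Circuit K V)
    (dA : X → FractionRing (MvPolynomial V K) → FractionRing (MvPolynomial V K))
    (dB : Y → FractionRing (MvPolynomial V K) → FractionRing (MvPolynomial V K)) :
    Set (Fin C.nodes) :=
  {g | (∃ i j, C.gate g = Gate.add i j) ∧ rat C g ∉ OneSided dA dB}

theorem circ_P (h : Diffs dA dB) (C : Circuit K V)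
    (hvar : ∀ x : V, gz K V x ∈ OneSided dA dB)
    (hconst : ∀ c : K, algebraMap K (FractionRing (MvPolynomial V K)) c ∈ OneSided dA dB)
    (v : Fin C.nodes) :
    P dA dB (rat C v) ∈ Submodule.span (FractionRing (MvPolynomial V K))
      (Set.range fun g : Cnt C dA dB => T dA dB (rat C (opd C g.1 false))
        (rat C (opd C g.1 true))) := by
  set W := Submodule.span (FractionRing (MvPolynomial V K))
      (Set.range fun g : Cnt C dA dB => T dA dB (rat C (opd C g.1 false))
        (rat C (opd C g.1 true))) with hW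
  obtain ⟨v, hv⟩ := v
  induction v using Nat.strong_induction_on with
  | _ v ih =>
    by_cases hone : rat C ⟨v, hv⟩ ∈ OneSided dA dB
    · rw [oneSided_P h hone]; exact W.zero_mem
    cases hg : C.gate ⟨v, hv⟩ with
    | var x =>
      have hdef : C.poly ⟨v, hv⟩ = MvPolynomial.X x := by
        rw [Circuit.poly]; simp only [hg]
      exact absurd (by unfold rat; rw [hdef]; exact hvar x) hone
    | const c =>
      have hdef : C.poly ⟨v, hv⟩ = MvPolynomial.C c := by
        rw [Circuit.poly]; simp only [hg]
      refine absurd ?_ hone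
      unfold rat
      rw [hdef, ← aM_eq]
      exact hconst c
    | mul i j =>
      have hdef : C.poly ⟨v, hv⟩ = C.poly (C.up ⟨v, hv⟩ i) * C.poly (C.up ⟨v, hv⟩ j) := by
        rw [Circuit.poly]; simp only [hg]
      have e : rat C ⟨v, hv⟩ = rat C (C.up ⟨v, hv⟩ i) * rat C (C.up ⟨v, hv⟩ j) := by
        unfold rat
        rw [hdef, map_mul]
      rw [e, P_mul h]
      exact W.add_mem (W.smul_mem _ (ih i i.2 _)) (W.smul_mem _ (ih j j.2 _))
    | add i j =>
      have hdef : C.poly ⟨v, hv⟩ = C.poly (C.up ⟨v, hv⟩ i) + C.poly (C.up ⟨v, hv⟩ j) := by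
        rw [Circuit.poly]; simp only [hg]
      have e : rat C ⟨v, hv⟩ = rat C (C.up ⟨v, hv⟩ i) + rat C (C.up ⟨v, hv⟩ j) := by
        unfold rat
        rw [hdef, map_add]
      have h1 := ih i i.2 (C.up ⟨v, hv⟩ i).2
      have h2 := ih j j.2 (C.up ⟨v, hv⟩ j).2
      change P dA dB (rat C (C.up ⟨v, hv⟩ i)) ∈ W at h1
      change P dA dB (rat C (C.up ⟨v, hv⟩ j)) ∈ W at h2
      rw [e]
      by_cases hi : rat C (C.up ⟨v, hv⟩ i) = 0
      · rw [hi, zero_add]; exact h2
      by_cases hj : rat C (C.up ⟨v, hv⟩ j) = 0
      · rw [hj, add_zero]; exact h1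
      rw [P_add h hi hj]
      refine W.add_mem (W.add_mem (W.smul_mem _ h1) (W.smul_mem _ h2)) (W.smul_mem _ ?_)
      refine Submodule.subset_span ⟨⟨⟨v, hv⟩, ⟨i, j, hg⟩, hone⟩, ?_⟩
      have e1 : opd C ⟨v, hv⟩ false = C.up ⟨v, hv⟩ i := by
        unfold opd; rw [hg]; rfl
      have e2 : opd C ⟨v, hv⟩ true = C.up ⟨v, hv⟩ j := by
        unfold opd; rw [hg]; rfl
      simp only [e1, e2]

/-- a decomposition from the sums of a circuit -/
theorem circ_rank {F : Type*} [Field F] [Algebra F (FractionRing (MvPolynomial V K))] {m n p : ℕ}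
    {a : Fin m × Fin n → FractionRing (MvPolynomial V K)}
    {b : Fin n × Fin p → FractionRing (MvPolynomial V K)}
    {dA : Fin m × Fin n → FractionRing (MvPolynomial V K) → FractionRing (MvPolynomial V K)}
    {dB : Fin n × Fin p → FractionRing (MvPolynomial V K) → FractionRing (MvPolynomial V K)}
    (h : Partials F a b dA dB) (C : Circuit K V)
    (hvar : ∀ x : V, gz K V x ∈ OneSided dA dB)
    (hconst : ∀ c : K, algebraMap K (FractionRing (MvPolynomial V K)) c ∈ OneSided dA dB)
    (hout : ∀ (i : Fin m) (k : Fin p), ∃ v : Fin C.nodes, rat C v = ∑ j, a (i, j) * b (j, k)) :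
    RankLE (FractionRing (MvPolynomial V K)) m n p (Nat.card (Cnt C dA dB) + m * p) := by
  classical
  choose v hv using hout
  have : Fintype (Cnt C dA dB) := Fintype.ofFinite _
  let α : Cnt C dA dB ⊕ (Fin m × Fin p) → Fin m × Fin n → FractionRing (MvPolynomial V K) :=
    Sum.elim (fun g x => dA x (rat C (opd C g.1 false)) / rat C (opd C g.1 false) -
      dA x (rat C (opd C g.1 true)) / rat C (opd C g.1 true))
      (fun q x => dA x (rat C (v q.1 q.2)))
  let β : Cnt C dA dB ⊕ (Fin m × Fin p) → Fin n × Fin p → FractionRing (MvPolynomial V K) :=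
    Sum.elim (fun g y => dB y (rat C (opd C g.1 false)) / rat C (opd C g.1 false) -
      dB y (rat C (opd C g.1 true)) / rat C (opd C g.1 true))
      (fun q y => dB y (rat C (v q.1 q.2)))
  have h1 := rankLE_of_span α β (m := m) (n := n) (p := p) ?_
  · have e : Fintype.card (Cnt C dA dB ⊕ (Fin m × Fin p)) = Nat.card (Cnt C dA dB) + m * p := by
      rw [Fintype.card_sum, Fintype.card_prod, Fintype.card_fin, Fintype.card_fin,
        Nat.card_eq_fintype_card]
    rwa [e] at h1
  · intro i k
    rw [← M_entry h i k, ← hv i k]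
    set W := Submodule.span (FractionRing (MvPolynomial V K))
      (Set.range fun l => fun x y => α l x * β l y) with hW
    have hP : P dA dB (rat C (v i k)) ∈ W := by
      refine (Submodule.span_le.2 ?_) (circ_P h.diffs C hvar hconst (v i k))
      rintro _ ⟨g, rfl⟩
      exact Submodule.subset_span ⟨Sum.inl g, rfl⟩
    have hO : O dA dB (rat C (v i k)) ∈ W := Submodule.subset_span ⟨Sum.inr (i, k), rfl⟩
    by_cases h0 : rat C (v i k) = 0
    · rw [h0, M_zero h.diffs]; exact W.zero_mem
    · have e : M dA dB (rat C (v i k)) =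
          (rat C (v i k))⁻¹ • (P dA dB (rat C (v i k)) + O dA dB (rat C (v i k))) := by
        unfold P
        rw [sub_add_cancel, smul_smul, inv_mul_cancel₀ h0, one_smul]
      rw [e]
      exact W.smul_mem _ (W.add_mem hP hO)

end

/-- polynomials without certain variables -/
theorem der_vars {K V : Type} [Field K]
    {D : FractionRing (MvPolynomial V K) → FractionRing (MvPolynomial V K)} (h : IsDer D)
    (hc : ∀ c : K, D (algebraMap K _ c) = 0) (q : MvPolynomial V K)
    (hq : ∀ i ∈ q.vars, D (gz K V i) = 0) :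
    D (algebraMap (MvPolynomial V K) _ q) = 0 := by
  have h1 : q ∈ MvPolynomial.supported K {i | D (gz K V i) = 0} := by
    rw [MvPolynomial.mem_supported]
    intro i hi
    exact hq i hi
  unfold MvPolynomial.supported at h1
  clear hq
  induction h1 using Algebra.adjoin_induction with
  | mem x hx =>
    obtain ⟨i, hi, rfl⟩ := hx
    exact hi
  | algebraMap r => exact (by rw [← hc r, aM_eq]; rfl)
  | add x y _ _ hx hy => rw [map_add, h.add, hx, hy, add_zero]
  | mul x y _ _ hx hy => rw [map_mul, h.mul, hx, hy]; ring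

end Pool.Agent.N590.MS
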