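import Pool.Agent.W956.KF.RatFun

set_option autoImplicit false

/-!
# Mixed second logarithmic derivatives
-/

namespace Pool.Agent.N590.MS

open Pool.Agent.H53R3 Pool.Agent.W956.KF

/-- Two families of derivations of the field `E`, such that each derivation of the first family
commutes with each derivation of the second. -/
structure Diffs {E : Type*} [Field E] {X Y : Type*} (dA : X → E → E) (dB : Y → E → E) : Prop where
  derA : ∀ x, IsDer (dA x)
  derB : ∀ y, IsDer (dB y)
  comm : ∀ x y z, dA x (dB y z) = dB y (dA x z)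

section

variable {E : Type*} [Field E] {X Y : Type*} (dA : X → E → E) (dB : Y → E → E)

/-- the mixed second derivatives -/
def M (z : E) : X → Y → E := fun x y => dA x (dB y z)

/-- the tensor product of the two gradients -/
def O (z : E) : X → Y → E := fun x y => dA x z * dB y z

/-- `z ^ 2` times the mixed second derivative of the logarithm of `z` -/
def P (z : E) : X → Y → E := z • M dA dB z - O dA dB z

/-- the tensor product of the gradients of the logarithm of `u / v` -/
def T (u v : E) : X → Y → E :=
  fun x y => (dA x u / u - dA x v / v) * (dB y u / u - dB y v / v)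

variable {dA dB}

theorem IsDer.inv' {D : E → E} (h : IsDer D) (u : E) : D u⁻¹ = -(u⁻¹ ^ 2 * D u) := by
  by_cases hu : u = 0
  · subst hu; rw [inv_zero, h.zero]; ring
  · have h1 : D (u * u⁻¹) = 0 := by rw [mul_inv_cancel₀ hu, h.one]
    rw [h.mul] at h1
    have h2 : u * D u⁻¹ = -(D u * u⁻¹) := by linear_combination h1
    have h3 : D u⁻¹ = u⁻¹ * (u * D u⁻¹) := by rw [← mul_assoc, inv_mul_cancel₀ hu, one_mul]
    rw [h3, h2]; ring

theorem M_add (h : Diffs dA dB) (u v : E) : M dA dB (u + v) = M dA dB u + M dA dB v := by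
  funext x y
  simp only [M, Pi.add_apply, (h.derB y).add, (h.derA x).add]

theorem M_mul (h : Diffs dA dB) (u v : E) (x : X) (y : Y) :
    M dA dB (u * v) x y = u * M dA dB v x y + v * M dA dB u x y + dA x u * dB y v +
      dA x v * dB y u := by
  simp only [M, (h.derB y).mul, (h.derA x).add, (h.derA x).mul]
  ring

theorem P_mul (h : Diffs dA dB) (u v : E) :
    P dA dB (u * v) = v ^ 2 • P dA dB u + u ^ 2 • P dA dB v := by
  funext x y
  simp only [P, Pi.sub_apply, Pi.add_apply, Pi.smul_apply, smul_eq_mul, M_mul h, O,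
    (h.derB y).mul, (h.derA x).mul]
  ring

theorem P_inv (h : Diffs dA dB) (u : E) : P dA dB u⁻¹ = (-(u⁻¹ ^ 4)) • P dA dB u := by
  by_cases hu : u = 0
  · subst hu
    funext x y
    simp [P, M, O, (h.derB y).zero, (h.derA x).zero]
  funext x y
  simp only [P, Pi.sub_apply, Pi.smul_apply, smul_eq_mul, O, M, IsDer.inv' (h.derB y),
    IsDer.inv' (h.derA x), (h.derA x).neg, (h.derA x).mul]
  have e : dA x (u⁻¹ ^ 2) = -(2 * u⁻¹ ^ 3 * dA x u) := by
    rw [pow_two, (h.derA x).mul, IsDer.inv' (h.derA x)]; ring
  rw [e]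
  field_simp
  ring

theorem P_add (h : Diffs dA dB) {u v : E} (hu : u ≠ 0) (hv : v ≠ 0) :
    P dA dB (u + v) = ((u + v) / u) • P dA dB u + ((u + v) / v) • P dA dB v +
      (u * v) • T dA dB u v := by
  funext x y
  simp only [P, Pi.sub_apply, Pi.add_apply, Pi.smul_apply, smul_eq_mul, M_add h, O, T,
    (h.derB y).add, (h.derA x).add]
  field_simp
  ring

end

end Pool.Agent.N590.MS
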