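import Pool.Agent.W956.KF.Defs
import Pool.Agent.H53R3.Der

set_option autoImplicit false

/-!
# Matrix multiplication when sums are counted and products are free: definitions
-/

namespace Pool.Agent.N590.MS

open Pool.Agent.H53R3 Pool.Agent.W956.KF Pool.Agent.H522R2

/-- What is available before step `i`: the elements of `S`, which are free, and the results
`z 0, …, z (i - 1)` of the previous steps. -/
def Avail {E : Type*} (S : Set E) (z : ℕ → E) (i : ℕ) : Set E := S ∪ {x | ∃ j < i, x = z j}

/-- `z 0, …, z (t - 1)` is a computation with `t` steps: `z i` is a function of one quantity `w`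
(in the sense of the relation `Fn`), where `w` is a linear combination with coefficients in `F` or
a product of (arbitrarily many) elements of `S` and results of previous steps; in the product also
the inverses of such elements are allowed. -/
def IsRun (F : Type*) {E : Type*} [Field F] [Field E] [Algebra F E] (Fn : E → E → Prop)
    (S : Set E) (z : ℕ → E) (t : ℕ) : Prop :=
  ∀ i < t, ∃ w : E, (w ∈ Submodule.span F (Avail S z i) ∨
    w ∈ Submonoid.closure (Avail S z i ∪ {x | x⁻¹ ∈ Avail S z i})) ∧ Fn w (z i)

/-- Two families of derivations of the field `E`, which vanish on `F`, such that each derivation of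
the first family commutes with each derivation of the second: partial derivatives with respect to
the entries of two matrices `a`, `b` over `E`. -/
structure Partials (F : Type*) {E X Y : Type*} [Field F] [Field E] [Algebra F E] [DecidableEq X]
    [DecidableEq Y] (a : X → E) (b : Y → E) (dA : X → E → E) (dB : Y → E → E) : Prop where
  derA : ∀ x, IsDer (dA x)
  derB : ∀ y, IsDer (dB y)
  comm : ∀ x y z, dA x (dB y z) = dB y (dA x z)
  constA : ∀ x (c : F), dA x (algebraMap F E c) = 0
  constB : ∀ y (c : F), dB y (algebraMap F E c) = 0
  aa : ∀ x x', dA x (a x') = if x = x' then 1 else 0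
  bb : ∀ y y', dB y (b y') = if y = y' then 1 else 0
  ab : ∀ x y, dA x (b y) = 0
  ba : ∀ y x, dB y (a x) = 0

/-- `z` is a function of `w`: its differential is a multiple of the differential of `w`. -/
def FnOf {E X Y : Type*} [Field E] (dA : X → E → E) (dB : Y → E → E) (w z : E) : Prop :=
  ∃ h : E, (∀ x, dA x z = h * dA x w) ∧ ∀ y, dB y z = h * dB y w

/-- The elements which do not depend on the first matrix or do not depend on the second. -/
def OneSided {E X Y : Type*} [Field E] (dA : X → E → E) (dB : Y → E → E) : Set E :=
  {z | (∀ x, dA x z = 0) ∨ ∀ y, dB y z = 0}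

/-- The field of rational functions in the entries of an `m × n` matrix and an `n × p` matrix. -/
abbrev RatField (F : Type) [Field F] (m n p : ℕ) : Type :=
  FractionRing (MvPolynomial ((Fin m × Fin n) ⊕ (Fin n × Fin p)) F)

/-- the entries of the first matrix -/
noncomputable def varA (F : Type) [Field F] (m n p : ℕ) (x : Fin m × Fin n) : RatField F m n p :=
  algebraMap (MvPolynomial ((Fin m × Fin n) ⊕ (Fin n × Fin p)) F) _ (MvPolynomial.X (Sum.inl x))

/-- the entries of the second matrix -/
noncomputable def varB (F : Type) [Field F] (m n p : ℕ) (y : Fin n × Fin p) : RatField F m n p :=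
  algebraMap (MvPolynomial ((Fin m × Fin n) ⊕ (Fin n × Fin p)) F) _ (MvPolynomial.X (Sum.inr y))

/-- the rational functions of the first matrix alone and those of the second matrix alone -/
def FreeRat (F : Type) [Field F] (m n p : ℕ) : Set (RatField F m n p) :=
  {z | z ∈ IntermediateField.adjoin F (Set.range (varA F m n p)) ∨
    z ∈ IntermediateField.adjoin F (Set.range (varB F m n p))}

/-- The product of a generic `m × n` matrix and a generic `n × p` matrix can be computed with `t`
steps: every step gives a rational function of one quantity, which is a linear combination or a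
product (with exponents `1` and `-1`, repetitions allowed) of results of previous steps and
rational functions of one of the two matrices alone; the entries of the product are linear
combinations of such functions and of results of steps. -/
def InSteps (F : Type) [Field F] (m n p t : ℕ) : Prop :=
  ∃ z : ℕ → RatField F m n p,
    IsRun F (fun w z => z ∈ IntermediateField.adjoin F {w}) (FreeRat F m n p) z t ∧
    ∀ (i : Fin m) (k : Fin p), ∑ j, varA F m n p (i, j) * varB F m n p (j, k) ∈
      Submodule.span F (Avail (FreeRat F m n p) z t)

/-- The `+` gates of a circuit whose result depends on the variables of both matrices: the number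
of these gates. -/
noncomputable def mixedSums {F X Y : Type*} [Field F] (C : Circuit F (X ⊕ Y)) : ℕ :=
  Nat.card {g : Fin C.nodes // (∃ i j, C.gate g = Gate.add i j) ∧
    (∃ x, Sum.inl x ∈ (C.poly g).vars) ∧ ∃ y, Sum.inr y ∈ (C.poly g).vars}

/-- The number of `+` gates of a circuit whose result is not a constant. -/
noncomputable def properSums {F V : Type*} [Field F] (C : Circuit F V) : ℕ :=
  Nat.card {g : Fin C.nodes // (∃ i j, C.gate g = Gate.add i j) ∧
    ∀ c : F, C.poly g ≠ MvPolynomial.C c}

/-- The entries of the product of a generic `m × n` matrix and a generic `n × p` matrix. -/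
noncomputable def entryRect (F : Type*) [Field F] {m n p : ℕ} (i : Fin m) (k : Fin p) :
    MvPolynomial ((Fin m × Fin n) ⊕ (Fin n × Fin p)) F :=
  ∑ j : Fin n, MvPolynomial.X (Sum.inl (i, j)) * MvPolynomial.X (Sum.inr (j, k))

/-- The circuit computes the product of a generic `m × n` matrix and a generic `n × p` matrix. -/
def ComputesRect {F : Type*} [Field F] {m n p : ℕ}
    (C : Circuit F ((Fin m × Fin n) ⊕ (Fin n × Fin p))) : Prop :=
  ∀ (i : Fin m) (k : Fin p), ∃ v : Fin C.nodes, C.poly v = entryRect F i k

/-- The least number of `+` gates, whose result depends on both matrices, of a circuit which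
multiplies two generic `m × m` matrices. -/
noncomputable def sumsMM (F : Type) [Field F] (m : ℕ) : ℕ :=
  sInf {s | ∃ C : Circuit F ((Fin m × Fin m) ⊕ (Fin m × Fin m)), ComputesMM C ∧ mixedSums C = s}

/-- The least number of `+` gates with a nonconstant result of a circuit which multiplies the
generic `m × m` matrix with the constant matrix `B`. -/
noncomputable def sumsKnown {K : Type} [Field K] (m : ℕ) {n p : ℕ} (B : Matrix (Fin n) (Fin p) K) :
    ℕ :=
  sInf {s | ∃ C : Circuit K (Fin m × Fin n), ComputesKnown C B ∧ properSums C = s}

end Pool.Agent.N590.MS
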