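import Pool.Agent.N590.MS.Core
import Pool.Agent.N590.MS.Defs

set_option autoImplicit false

namespace Pool.Agent.N590.MS

open Pool.Agent.H53R3 Pool.Agent.W956.KF

section

variable {E : Type*} [Field E] {X Y : Type*} {dA : X → E → E} {dB : Y → E → E}
  {V : Submodule E (X → Y → E)}

theorem M_zero (h : Diffs dA dB) : M dA dB 0 = 0 := by
  funext x y
  simp [M, (h.derB y).zero, (h.derA x).zero]

theorem P_one (h : Diffs dA dB) : P dA dB 1 = 0 := by
  funext x y
  simp [P, M, O, (h.derB y).one, (h.derA x).zero]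

theorem M_mem_span (h : Diffs dA dB) {F : Type*} [Field F] [Algebra F E]
    (hFA : ∀ x (c : F), dA x (algebraMap F E c) = 0)
    (hFB : ∀ y (c : F), dB y (algebraMap F E c) = 0) {S : Set E}
    (hS : ∀ s ∈ S, M dA dB s ∈ V) {w : E} (hw : w ∈ Submodule.span F S) : M dA dB w ∈ V := by
  induction hw using Submodule.span_induction with
  | mem x hx => exact hS x hx
  | zero => rw [M_zero h]; exact V.zero_mem
  | add x y _ _ hx hy => rw [M_add h]; exact V.add_mem hx hy
  | smul c x _ hx =>
    have e : M dA dB (c • x) = algebraMap F E c • M dA dB x := by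
      funext i j
      simp only [M, Algebra.smul_def c x, (h.derB j).mul, hFB, zero_mul, zero_add, (h.derA i).mul,
        hFA, Pi.smul_apply, smul_eq_mul]
    rw [e]
    exact V.smul_mem _ hx

theorem P_mem_closure (h : Diffs dA dB) {S : Set E}
    (hS : ∀ s ∈ S, P dA dB s ∈ V) {w : E} (hw : w ∈ Submonoid.closure (S ∪ {x | x⁻¹ ∈ S})) :
    P dA dB w ∈ V := by
  induction hw using Submonoid.closure_induction with
  | mem x hx =>
    rcases hx with hx | hx
    · exact hS x hx
    · have h1 := hS _ hx
      rw [← inv_inv x, P_inv h]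
      exact V.smul_mem _ h1
  | one => rw [P_one h]; exact V.zero_mem
  | mul x y _ _ hx hy => rw [P_mul h]; exact V.add_mem (V.smul_mem _ hx) (V.smul_mem _ hy)

theorem oneSided_M (h : Diffs dA dB) {z : E} (hz : z ∈ OneSided dA dB) : M dA dB z = 0 := by
  funext x y
  rcases hz with hz | hz
  · simp only [M, Pi.zero_apply]
    rw [h.comm, hz, (h.derB y).zero]
  · simp only [M, Pi.zero_apply]
    rw [hz, (h.derA x).zero]

theorem oneSided_O {z : E} (hz : z ∈ OneSided dA dB) : O dA dB z = 0 := by
  funext x y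
  rcases hz with hz | hz
  · simp [O, hz]
  · simp [O, hz]

theorem oneSided_P (h : Diffs dA dB) {z : E} (hz : z ∈ OneSided dA dB) : P dA dB z = 0 := by
  unfold P
  rw [oneSided_M h hz, oneSided_O hz, smul_zero, sub_zero]

/-- a function of one quantity -/
theorem fnOf_step (h : Diffs dA dB) {w z : E} (hz : FnOf dA dB w z) (hO : O dA dB w ∈ V)
    (hw : M dA dB w ∈ V ∨ P dA dB w ∈ V) : M dA dB z ∈ V ∧ P dA dB z ∈ V := by
  obtain ⟨g, hA, hB⟩ := hz
  -- the second derivatives of `z`
  have key : ∃ c : E, M dA dB z = c • O dA dB w + g • M dA dB w := by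
    by_cases hβ : ∃ y₀, dB y₀ w ≠ 0
    · obtain ⟨y₀, hy₀⟩ := hβ
      refine ⟨dB y₀ g / dB y₀ w, ?_⟩
      have hc : ∀ x y, dA x g * dB y w = dB y g * dA x w := by
        intro x y
        have h1 := h.comm x y z
        rw [hB, hA, (h.derA x).mul, (h.derB y).mul, h.comm] at h1
        linear_combination h1
      funext x y
      simp only [M, O, Pi.add_apply, Pi.smul_apply, smul_eq_mul, hB, (h.derA x).mul]
      have h2 := hc x y₀
      have h3 : dA x g = dB y₀ g / dB y₀ w * dA x w := by
        field_simp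
        linear_combination h2
      rw [h3]; ring
    · push Not at hβ
      refine ⟨0, ?_⟩
      funext x y
      simp only [M, O, Pi.add_apply, Pi.smul_apply, smul_eq_mul, hB, (h.derA x).mul, hβ,
        (h.derA x).zero]
      ring
  obtain ⟨c, hc⟩ := key
  have hOz : O dA dB z = g ^ 2 • O dA dB w := by
    funext x y
    simp only [O, Pi.smul_apply, smul_eq_mul, hA, hB]; ring
  have hMz : M dA dB z ∈ V := by
    rw [hc]
    rcases hw with hw | hw
    · exact V.add_mem (V.smul_mem _ hO) (V.smul_mem _ hw)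
    · by_cases hw0 : w = 0
      · have e : M dA dB w = 0 := by rw [hw0, M_zero h]
        rw [e, smul_zero, add_zero]
        exact V.smul_mem _ hO
      · have e : M dA dB w = w⁻¹ • (P dA dB w + O dA dB w) := by
          unfold P
          rw [sub_add_cancel, smul_smul, inv_mul_cancel₀ hw0, one_smul]
        rw [e]
        exact V.add_mem (V.smul_mem _ hO) (V.smul_mem _ (V.smul_mem _ (V.add_mem hw hO)))
  refine ⟨hMz, ?_⟩
  unfold P
  rw [hOz]
  exact V.sub_mem (V.smul_mem _ hMz) (V.smul_mem _ hO)

/-- The results of the steps of a computation. -/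
theorem run_mem (h : Diffs dA dB) {F : Type*} [Field F] [Algebra F E]
    (hFA : ∀ x (c : F), dA x (algebraMap F E c) = 0)
    (hFB : ∀ y (c : F), dB y (algebraMap F E c) = 0) {S : Set E} (hS : S ⊆ OneSided dA dB)
    {z : ℕ → E} {t : ℕ} (hz : IsRun F (FnOf dA dB) S z t) :
    ∃ w : Fin t → E, ∀ x ∈ Submodule.span F (Avail S z t),
      M dA dB x ∈ Submodule.span E (Set.range fun l => O dA dB (w l)) := by
  choose! w hw using hz
  refine ⟨fun l => w l, ?_⟩
  set V : Submodule E (X → Y → E) := Submodule.span E (Set.range fun l : Fin t => O dA dB (w l))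
    with hV
  have main : ∀ i, i < t → M dA dB (z i) ∈ V ∧ P dA dB (z i) ∈ V := by
    intro i
    induction i using Nat.strong_induction_on with
    | _ i ih =>
      intro hi
      obtain ⟨h1, h2⟩ := hw i hi
      have hO : O dA dB (w i) ∈ V := Submodule.subset_span ⟨⟨i, hi⟩, rfl⟩
      refine fnOf_step h h2 hO ?_
      rcases h1 with h1 | h1
      · left
        refine M_mem_span h hFA hFB ?_ h1
        rintro s (hs | ⟨j, hj, rfl⟩)
        · rw [oneSided_M h (hS hs)]; exact V.zero_mem
        · exact (ih j hj (hj.trans hi)).1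
      · right
        refine P_mem_closure h ?_ h1
        rintro s (hs | ⟨j, hj, rfl⟩)
        · rw [oneSided_P h (hS hs)]; exact V.zero_mem
        · exact (ih j hj (hj.trans hi)).2
  intro x hx
  refine M_mem_span h hFA hFB ?_ hx
  rintro s (hs | ⟨j, hj, rfl⟩)
  · rw [oneSided_M h (hS hs)]; exact V.zero_mem
  · exact (main j hj).1

end

/-- A bound for the rank from a span of rank-one matrices. -/
theorem rankLE_of_span {E : Type*} [Field E] {m n p : ℕ} {ι : Type*} [Fintype ι]
    (α : ι → Fin m × Fin n → E) (β : ι → Fin n × Fin p → E)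
    (h : ∀ (i : Fin m) (k : Fin p), (fun (x : Fin m × Fin n) (y : Fin n × Fin p) =>
      if x.1 = i ∧ x.2 = y.1 ∧ y.2 = k then (1 : E) else 0) ∈
        Submodule.span E (Set.range fun l => fun x y => α l x * β l y)) :
    RankLE E m n p (Fintype.card ι) := by
  have h1 : ∀ i k, ∃ c : ι → E, ∀ x y, (∑ l, c l * (α l x * β l y)) =
      if x.1 = i ∧ x.2 = y.1 ∧ y.2 = k then (1 : E) else 0 := by
    intro i k
    obtain ⟨c, hc⟩ := (Submodule.mem_span_range_iff_exists_fun E).1 (h i k)
    refine ⟨c, fun x y => ?_⟩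
    have := congrFun (congrFun hc x) y
    rw [← this]
    simp [Finset.sum_apply]
  choose c hc using h1
  let e := Fintype.equivFin ι
  refine ⟨fun l => Matrix.of fun i j => α (e.symm l) (i, j),
    fun l => Matrix.of fun j k => β (e.symm l) (j, k),
    fun l => Matrix.of fun i k => c i k (e.symm l), fun i i' j j' k k' => ?_⟩
  simp only [Matrix.of_apply]
  have h2 := hc i' k' (i, j) (j', k)
  simp only at h2
  rw [← h2, ← e.symm.sum_comp]
  exact Finset.sum_congr rfl fun l _ => by ring

/-- the mixed derivatives of the entries of the product -/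
theorem M_entry {E F : Type*} [Field F] [Field E] [Algebra F E] {m n p : ℕ}
    {a : Fin m × Fin n → E} {b : Fin n × Fin p → E} {dA : Fin m × Fin n → E → E}
    {dB : Fin n × Fin p → E → E} (h : Partials F a b dA dB) (i : Fin m) (k : Fin p) :
    M dA dB (∑ j, a (i, j) * b (j, k)) = fun (x : Fin m × Fin n) (y : Fin n × Fin p) =>
      if x.1 = i ∧ x.2 = y.1 ∧ y.2 = k then (1 : E) else 0 := by
  funext x y
  simp only [M, (h.derB y).sum, (h.derB y).mul, h.ba, zero_mul, zero_add, h.bb, (h.derA x).sum]
  have e : ∀ j, dA x (a (i, j) * if y = (j, k) then 1 else 0) =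
      if x = (i, j) ∧ y = (j, k) then 1 else 0 := by
    intro j
    by_cases hy : y = (j, k)
    · rw [if_pos hy, mul_one, h.aa]
      simp [hy]
    · rw [if_neg hy, mul_zero, (h.derA x).zero, if_neg (fun h => hy h.2)]
  simp only [e]
  obtain ⟨x1, x2⟩ := x
  obtain ⟨y1, y2⟩ := y
  simp only [Prod.mk.injEq]
  by_cases h0 : x1 = i ∧ x2 = y1 ∧ y2 = k
  · rw [if_pos h0, Finset.sum_eq_single x2]
    · rw [if_pos ⟨⟨h0.1, rfl⟩, h0.2.1.symm, h0.2.2⟩]
    · intro j _ hj
      rw [if_neg (by rintro ⟨⟨_, h1⟩, _⟩; exact hj h1.symm)]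
    · simp
  · rw [if_neg h0]
    refine Finset.sum_eq_zero fun j _ => ?_
    rw [if_neg]
    rintro ⟨⟨h1, h2⟩, h3, h4⟩
    exact h0 ⟨h1, h2.trans h3.symm, h4⟩

theorem Partials.diffs {F E X Y : Type*} [Field F] [Field E] [Algebra F E] [DecidableEq X]
    [DecidableEq Y] {a : X → E} {b : Y → E} {dA : X → E → E} {dB : Y → E → E}
    (h : Partials F a b dA dB) : Diffs dA dB := ⟨h.derA, h.derB, h.comm⟩

/-- **Computations with `t` steps give decompositions with `t` terms.** -/
theorem run_rank {F E : Type*} [Field F] [Field E] [Algebra F E] {m n p : ℕ}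
    {a : Fin m × Fin n → E} {b : Fin n × Fin p → E} {dA : Fin m × Fin n → E → E}
    {dB : Fin n × Fin p → E → E} (h : Partials F a b dA dB) {z : ℕ → E} {t : ℕ}
    (hz : IsRun F (FnOf dA dB) (OneSided dA dB) z t)
    (hout : ∀ (i : Fin m) (k : Fin p), ∑ j, a (i, j) * b (j, k) ∈
      Submodule.span F (Avail (OneSided dA dB) z t)) :
    RankLE E m n p t := by
  obtain ⟨w, hw⟩ := run_mem h.diffs h.constA h.constB (subset_refl _) hz
  have h1 := rankLE_of_span (fun l x => dA x (w l)) (fun l y => dB y (w l)) (m := m) (n := n)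
    (p := p) (fun i k => by
      have := hw _ (hout i k)
      rw [M_entry h] at this
      exact this)
  rwa [Fintype.card_fin] at h1

end Pool.Agent.N590.MS
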