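import Pool.Agent.W956.KF.Growth

set_option autoImplicit false

/-!
# The exponent of matrix multiplication does not change under algebraic extensions
-/

namespace Pool.Agent.N590.MS

open Pool.Agent.H826R3.SM Filter Pool.Agent.W956.KF

/-- restriction of scalars -/
theorem rk_ext_le {F L : Type} [Field F] [Field L] [Algebra F L] [FiniteDimensional F L] (n : ℕ) :
    rk F n ≤ Module.finrank F L ^ 2 * rk L n := by
  classical
  obtain ⟨a, b, c, h⟩ := hasRank_rk (F := L) n
  set d := Module.finrank F L with hd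
  let e : Module.Basis (Fin d) F L := Module.finBasis F L
  -- a linear functional with value one at one
  obtain ⟨lam, hlam⟩ : ∃ lam : L →ₗ[F] F, lam 1 = 1 := by
    obtain ⟨f, hf⟩ := (LinearMap.exists_leftInverse_of_injective (Algebra.linearMap F L)
      (LinearMap.ker_eq_bot.2 (algebraMap F L).injective))
    refine ⟨f, ?_⟩
    have := congrArg (fun g => g 1) hf
    simpa using this
  have hex : ∀ x : L, x = ∑ s, e.repr x s • e s := fun x => (e.sum_repr x).symm
  have hcard : Fintype.card (Fin (rk L n) × Fin d × Fin d) ≤ d ^ 2 * rk L n := by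
    simp only [Fintype.card_prod, Fintype.card_fin]
    exact le_of_eq (by ring)
  refine (rk_le (hasRank_of_hasRankT (I := Fin n) (T := Fin (rk L n) × Fin d × Fin d) (n := n)
    (r := Fintype.card (Fin (rk L n) × Fin d × Fin d)) (by simp) rfl ?_)).trans hcard
  refine ⟨fun t i j => e.repr (a t.1 i j) t.2.1, fun t i j => e.repr (b t.1 i j) t.2.2,
    fun t i j => lam (e t.2.1 * e t.2.2 * c t.1 i j), fun i j j' k k' l => ?_⟩
  have h1 := congrArg lam (h i j j' k k' l)
  rw [map_sum] at h1
  have e0 : lam (if j = j' ∧ k = k' ∧ l = i then (1 : L) else 0) =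
      if j = j' ∧ k = k' ∧ l = i then (1 : F) else 0 := by
    split_ifs
    · exact hlam
    · exact map_zero _
  rw [e0] at h1
  rw [h1, Fintype.sum_prod_type]
  refine Finset.sum_congr rfl fun t _ => ?_
  rw [Fintype.sum_prod_type]
  have e1 : a t i j * b t j' k * c t k' l = ∑ s, ∑ s', (e.repr (a t i j) s * e.repr (b t j' k) s') •
      (e s * e s' * c t k' l) := by
    conv_lhs => rw [hex (a t i j), hex (b t j' k)]
    rw [Finset.sum_mul_sum, Finset.sum_mul]
    refine Finset.sum_congr rfl fun s _ => ?_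
    rw [Finset.sum_mul]
    refine Finset.sum_congr rfl fun s' _ => ?_
    simp only [Algebra.smul_def, map_mul]
    ring
  rw [e1, map_sum]
  refine Finset.sum_congr rfl fun s _ => ?_
  rw [map_sum]
  refine Finset.sum_congr rfl fun s' _ => ?_
  rw [map_smul, smul_eq_mul]

/-- a decomposition over the algebraic closure is defined over a finite extension -/
theorem exists_finite_ext {F : Type} [Field F] {q r : ℕ} (h : HasRank (AlgebraicClosure F) q r) :
    ∃ L : IntermediateField F (AlgebraicClosure F), FiniteDimensional F L ∧ HasRank L q r := by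
  classical
  obtain ⟨a, b, c, h⟩ := h
  let S : Set (AlgebraicClosure F) :=
    (Set.range fun t : Fin r × Fin q × Fin q => a t.1 t.2.1 t.2.2) ∪
    (Set.range fun t : Fin r × Fin q × Fin q => b t.1 t.2.1 t.2.2) ∪
    (Set.range fun t : Fin r × Fin q × Fin q => c t.1 t.2.1 t.2.2)
  have hS : S.Finite := ((Set.finite_range _).union (Set.finite_range _)).union (Set.finite_range _)
  let L := IntermediateField.adjoin F S
  have hfin : FiniteDimensional F L := by
    have : Finite S := hS
    exact IntermediateField.finiteDimensional_adjoin fun x _ =>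
      (Algebra.IsAlgebraic.isAlgebraic x).isIntegral
  have ha : ∀ t i j, a t i j ∈ L := fun t i j =>
    IntermediateField.subset_adjoin _ _ (Or.inl (Or.inl ⟨(t, i, j), rfl⟩))
  have hb : ∀ t i j, b t i j ∈ L := fun t i j =>
    IntermediateField.subset_adjoin _ _ (Or.inl (Or.inr ⟨(t, i, j), rfl⟩))
  have hc : ∀ t i j, c t i j ∈ L := fun t i j =>
    IntermediateField.subset_adjoin _ _ (Or.inr ⟨(t, i, j), rfl⟩)
  refine ⟨L, hfin, fun t i j => ⟨a t i j, ha t i j⟩, fun t i j => ⟨b t i j, hb t i j⟩,
    fun t i j => ⟨c t i j, hc t i j⟩, fun i j j' k k' l => ?_⟩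
  apply Subtype.ext
  have h1 := h i j j' k k' l
  rw [AddSubmonoidClass.coe_finsetSum]
  simp only [MulMemClass.coe_mul]
  rw [← h1]
  split_ifs <;> rfl

theorem upper_of_lt {F : Type} [Field F] {τ : ℝ} (hτ : omegaMM (AlgebraicClosure F) < τ) :
    ∃ C : ℝ, ∀ n : ℕ, (rk F n : ℝ) ≤ C * (n : ℝ) ^ τ := by
  obtain ⟨τ', ⟨D, hD⟩, hττ⟩ :=
    exists_lt_of_csInf_lt (omega_set_nonempty (F := AlgebraicClosure F)) hτ
  have hlim : Tendsto (fun q : ℕ => (q : ℝ) ^ (τ - τ')) atTop atTop :=
    (tendsto_rpow_atTop (by linarith)).comp tendsto_natCast_atTop_atTop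
  obtain ⟨q, hq1, hq2⟩ := ((hlim.eventually_gt_atTop D).and (eventually_ge_atTop 2)).exists
  have hq0 : (0 : ℝ) < q := by exact_mod_cast (by omega : 0 < q)
  have h1 : (rk (AlgebraicClosure F) q : ℝ) < (q : ℝ) ^ τ := by
    calc (rk (AlgebraicClosure F) q : ℝ) ≤ D * (q : ℝ) ^ τ' := hD q
      _ < (q : ℝ) ^ (τ - τ') * (q : ℝ) ^ τ' :=
          mul_lt_mul_of_pos_right hq1 (Real.rpow_pos_of_pos hq0 _)
      _ = (q : ℝ) ^ τ := by
          rw [← Real.rpow_add hq0]
          congr 1
          ring
  obtain ⟨L, hfin, hL⟩ := exists_finite_ext (hasRank_rk (F := AlgebraicClosure F) q)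
  have hAD : AD L (Fin q) (Fin (rk (AlgebraicClosure F) q)) 0 := by
    obtain ⟨a, b, c, h⟩ := hL
    refine ⟨fun t i j => Polynomial.C (a t i j), fun t i j => Polynomial.C (b t i j),
      fun t i j => Polynomial.C (c t i j),
      fun i j j' k k' l => Polynomial.C (if j = j' ∧ k = k' ∧ l = i then 1 else 0), ?_⟩
    intro i j j' k k' l
    refine ⟨?_, by rw [Polynomial.eval_C]⟩
    simp only [pow_zero, one_mul, h i j j' k k' l, map_sum, map_mul]
  obtain ⟨C, hC⟩ := hAD.exponent hq2 τ h1
  refine ⟨(Module.finrank F L : ℝ) ^ 2 * C, fun n => ?_⟩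
  have h2 : (rk F n : ℝ) ≤ (Module.finrank F L : ℝ) ^ 2 * rk L n := by
    exact_mod_cast rk_ext_le (F := F) (L := L) n
  refine h2.trans ?_
  rw [mul_assoc]
  exact mul_le_mul_of_nonneg_left (hC n) (by positivity)

theorem rk_closure_le (F : Type) [Field F] (n : ℕ) : rk (AlgebraicClosure F) n ≤ rk F n := by
  obtain ⟨a, b, c, h⟩ := hasRank_rk (F := F) n
  refine rk_le ⟨fun t i j => algebraMap _ _ (a t i j), fun t i j => algebraMap _ _ (b t i j),
    fun t i j => algebraMap _ _ (c t i j), fun i j j' k k' l => ?_⟩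
  have h1 := congrArg (algebraMap F (AlgebraicClosure F)) (h i j j' k k' l)
  rw [map_sum] at h1
  simp only [map_mul] at h1
  rw [← h1]
  split_ifs <;> simp

/-- **The exponent over a field and over its algebraic closure.** -/
theorem omegaMM_closure (F : Type) [Field F] : omegaMM (AlgebraicClosure F) = omegaMM F := by
  apply le_antisymm
  · refine le_csInf omega_set_nonempty ?_
    rintro τ ⟨C, hC⟩
    refine csInf_le omega_set_bddBelow ⟨C, fun n => le_trans ?_ (hC n)⟩
    exact_mod_cast rk_closure_le F n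
  · refine le_of_forall_pos_le_add fun ε hε => ?_
    exact csInf_le omega_set_bddBelow (upper_of_lt (by linarith))

end Pool.Agent.N590.MS
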