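import Pool.Agent.N590.MS.Known
import Pool.Agent.N590.MS.Ext
import Pool.Agent.W956.KF.Explicit

set_option autoImplicit false

/-!
# Growth; algebraically closed fields
-/

namespace Pool.Agent.N590.MS

open Pool.Agent.H53R3 Pool.Agent.W956.KF Pool.Agent.H522R2 MvPolynomial Filter
open Pool.Agent.H826R3.SM (omegaMM)
open Pool.Agent.W956.FF (expMat algebraicIndependent_expMat)

/-- the rank over an extension of an algebraically closed field -/
theorem rank_algClosed {F E : Type*} [Field F] [IsAlgClosed F] [Field E] [Algebra F E]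
    {m n p r : ℕ} (h : RankLE E m n p r) : RankLE F m n p r := by
  classical
  obtain ⟨U, V, W, h⟩ := h
  let S : Finset E :=
    (Finset.univ.image fun t : Fin r × Fin m × Fin n => U t.1 t.2.1 t.2.2) ∪
    (Finset.univ.image fun t : Fin r × Fin n × Fin p => V t.1 t.2.1 t.2.2) ∪
    (Finset.univ.image fun t : Fin r × Fin m × Fin p => W t.1 t.2.1 t.2.2)
  let R := Algebra.adjoin F (S : Set E)
  have hft : Algebra.FiniteType F R := (Subalgebra.fg_iff_finiteType _).1 ⟨S, rfl⟩
  have hU : ∀ l i j, U l i j ∈ R := fun l i j => Algebra.subset_adjoin (by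
    simp only [S, Finset.coe_union, Finset.coe_image, Finset.coe_univ, Set.image_univ]
    exact Or.inl (Or.inl ⟨(l, i, j), rfl⟩))
  have hV : ∀ l i j, V l i j ∈ R := fun l i j => Algebra.subset_adjoin (by
    simp only [S, Finset.coe_union, Finset.coe_image, Finset.coe_univ, Set.image_univ]
    exact Or.inl (Or.inr ⟨(l, i, j), rfl⟩))
  have hW : ∀ l i j, W l i j ∈ R := fun l i j => Algebra.subset_adjoin (by
    simp only [S, Finset.coe_union, Finset.coe_image, Finset.coe_univ, Set.image_univ]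
    exact Or.inr ⟨(l, i, j), rfl⟩)
  obtain ⟨I, hI⟩ := Ideal.exists_maximal R
  let _ : Field (R ⧸ I) := Ideal.Quotient.field I
  have hfin : Module.Finite F (R ⧸ I) := finite_of_finite_type_of_isJacobsonRing F (R ⧸ I)
  let ψ : (R ⧸ I) →ₐ[F] F := IsAlgClosed.lift
  let φ : R →+* F := (ψ.toRingHom).comp (Ideal.Quotient.mk I)
  refine ⟨fun l => Matrix.of fun i j => φ ⟨U l i j, hU l i j⟩,
    fun l => Matrix.of fun i j => φ ⟨V l i j, hV l i j⟩,
    fun l => Matrix.of fun i j => φ ⟨W l i j, hW l i j⟩, fun i i' j j' k k' => ?_⟩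
  simp only [Matrix.of_apply, ← map_mul, ← map_sum]
  have e : (∑ l, (⟨U l i j, hU l i j⟩ : R) * ⟨V l j' k, hV l j' k⟩ * ⟨W l i' k', hW l i' k'⟩) =
      if i = i' ∧ j = j' ∧ k = k' then 1 else 0 := by
    apply Subtype.ext
    have h1 := h i i' j j' k k'
    rw [AddSubmonoidClass.coe_finsetSum]
    simp only [MulMemClass.coe_mul]
    rw [h1]
    split_ifs <;> rfl
  rw [e]
  split_ifs
  · exact map_one φ
  · exact map_zero φ

theorem mixedSums_le_size {F X Y : Type} [Field F] (C : Circuit F (X ⊕ Y)) :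
    mixedSums C ≤ C.size := by
  unfold mixedSums Circuit.size
  exact Nat.card_le_card_of_injective (fun g : {g : Fin C.nodes //
      (∃ i j, C.gate g = Gate.add i j) ∧
      (∃ x, Sum.inl x ∈ (C.poly g).vars) ∧ ∃ y, Sum.inr y ∈ (C.poly g).vars} =>
    (⟨g.1, Or.inl g.2.1⟩ : {k : Fin C.nodes //
      (∃ i j, C.gate k = Gate.add i j) ∨ ∃ i j, C.gate k = Gate.mul i j}))
    fun x y hxy => Subtype.ext (by simpa using hxy)

theorem properSums_le_size {F V : Type} [Field F] (C : Circuit F V) :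
    properSums C ≤ C.size := by
  unfold properSums Circuit.size
  exact Nat.card_le_card_of_injective (fun g : {g : Fin C.nodes //
      (∃ i j, C.gate g = Gate.add i j) ∧ ∀ c : F, C.poly g ≠ MvPolynomial.C c} =>
    (⟨g.1, Or.inl g.2.1⟩ : {k : Fin C.nodes //
      (∃ i j, C.gate k = Gate.add i j) ∨ ∃ i j, C.gate k = Gate.mul i j}))
    fun x y hxy => Subtype.ext (by simpa using hxy)

section growth

variable (K : Type) [Field K] [Infinite K]

/-- a simple lower bound for the rank -/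
theorem trank_simple (m : ℕ) : 2 * m ^ 2 ≤ trank K m m m + m := by
  have h := trank_lower K (m := m) (q := m) (p := 0) (by omega)
  simp only [mul_zero, zero_add, one_mul, mul_one, Nat.choose_zero_right] at h
  nlinarith

omit [Infinite K] in
theorem trank_zero : trank K 0 0 0 = 0 :=
  Nat.le_zero.1 (trank_le (rankLE_cube K 0 0 0))

omit [Infinite K] in
theorem trank_one : trank K 1 1 1 = 1 := by
  have h1 := trank_le (rankLE_cube K 1 1 1)
  have h2 := sq_le_trank K 1
  omega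

variable {K}

theorem le_three {m s : ℕ} (hm : 2 ≤ m) (h : trank K m m m ≤ s + m ^ 2) :
    trank K m m m ≤ 3 * s := by
  have h1 := trank_simple K m
  nlinarith

variable (f g : ℕ → ℕ) (hf : ∀ m, trank K m m m ≤ f m + m ^ 2) (hfg : ∀ m, f m ≤ g m)
  (hg : ∀ τ, omegaMM K < τ → ∃ D : ℝ, ∀ m : ℕ, (g m : ℝ) ≤ D * (m : ℝ) ^ τ) (hg1 : 1 ≤ g 1)

include hf

theorem infinite_part {τ D : ℝ} (h : {m : ℕ | (f m : ℝ) ≤ D * (m : ℝ) ^ τ}.Infinite) :
    omegaMM K ≤ τ := by
  refine omega_le_of_infinite (f := fun m => if m = 1 then 1 else f m) (c := 3) (K := K)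
    (τ := τ) (D := D) ?_ ?_
  · intro m
    rcases Nat.lt_or_ge m 2 with hm | hm
    · interval_cases m
      · rw [trank_zero]; exact Nat.zero_le _
      · rw [trank_one]; simp
    · rw [if_neg (by omega)]
      exact le_three hm (hf m)
  · refine (h.sdiff (Set.finite_singleton 1)).mono ?_
    rintro m ⟨hm, hm1⟩
    have hm1' : m ≠ 1 := fun h0 => hm1 h0
    simp only [Set.mem_ofPred_eq, if_neg hm1'] at hm ⊢
    exact hm

include hfg hg

theorem growth_part : growth f = omegaMM K := by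
  have hup' : ∀ τ, omegaMM K < τ → ∃ D : ℝ, ∀ m : ℕ, (f m : ℝ) ≤ D * (m : ℝ) ^ τ := by
    intro τ hτ
    obtain ⟨D, hD⟩ := hg τ hτ
    exact ⟨D, fun m => le_trans (by exact_mod_cast hfg m) (hD m)⟩
  have hlow : ∀ τ ∈ {τ : ℝ | ∃ D : ℝ, ∀ m : ℕ, (f m : ℝ) ≤ D * (m : ℝ) ^ τ},
      omegaMM K ≤ τ := by
    rintro τ ⟨D, hD⟩
    refine infinite_part f hf (τ := τ) (D := D) ?_
    rw [show {m : ℕ | (f m : ℝ) ≤ D * (m : ℝ) ^ τ} = Set.univ from
      Set.eq_univ_of_forall hD]
    exact Set.infinite_univ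
  apply le_antisymm
  · refine le_of_forall_pos_le_add fun ε hε => ?_
    exact csInf_le ⟨omegaMM K, hlow⟩ (hup' _ (by linarith))
  · refine le_csInf ?_ hlow
    exact ⟨_, hup' _ (lt_add_one _)⟩

include hg1

theorem superlinear_part : Superlinear g ↔
      ∃ α : ℝ, 1 < α ∧ ∃ c : ℝ, 0 < c ∧ ∀ m : ℕ, 2 ≤ m → c * (((m : ℝ) ^ 2) ^ α) ≤ f m := by
  have hMM : ∀ m, trank K m m m ≤ 3 * g m := by
    intro m
    rcases Nat.lt_or_ge m 2 with hm | hm
    · interval_cases m
      · rw [trank_zero]; exact Nat.zero_le _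
      · rw [trank_one]
        omega
    · exact (le_three hm (hf m)).trans (Nat.mul_le_mul_left _ (hfg m))
  have sM := superlinear_iff (K := K) (f := g) (c := 3) (by norm_num) hMM hg
  constructor
  · intro h
    have hω := sM.1 h
    refine ⟨omegaMM K / 2, by linarith, 1 / 3, by norm_num, fun m hm => ?_⟩
    have hm0 : (0 : ℝ) < m := by exact_mod_cast (by omega : 0 < m)
    have e1 : ((m : ℝ) ^ 2) ^ (omegaMM K / 2) = (m : ℝ) ^ omegaMM K := by
      rw [← Real.rpow_natCast (m : ℝ) 2, ← Real.rpow_mul hm0.le]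
      congr 1
      push_cast
      ring
    have h1 := rpow_omega_le K m (by omega)
    have h2 : (trank K m m m : ℝ) ≤ 3 * f m := by exact_mod_cast le_three hm (hf m)
    rw [e1]
    linarith
  · rintro ⟨α, hα, c, hc, h⟩
    refine ⟨α, hα, min c 1, by positivity, fun m => ?_⟩
    rcases Nat.lt_or_ge m 2 with hm | hm
    · interval_cases m
      · rw [Nat.cast_zero, zero_pow two_ne_zero, Real.zero_rpow (by linarith), mul_zero]
        exact Nat.cast_nonneg _
      · simp only [Nat.cast_one, one_pow, Real.one_rpow, mul_one]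
        have h1 : (1 : ℝ) ≤ g 1 := by exact_mod_cast hg1
        exact (min_le_right _ _).trans h1
    · have h1 : (f m : ℝ) ≤ g m := by exact_mod_cast hfg m
      refine le_trans (mul_le_mul_of_nonneg_right (min_le_left _ _) ?_) ((h m hm).trans h1)
      positivity

omit hfg hg hg1 [Infinite K] in
theorem two_part (ε : ℝ) (m : ℕ) (h : (3 - ε) * (m : ℝ) ^ 2 ≤ trank K m m m) :
    (2 - ε) * (m : ℝ) ^ 2 ≤ f m := by
  have h1 : (trank K m m m : ℝ) ≤ f m + (m : ℝ) ^ 2 := by exact_mod_cast hf m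
  linarith

end growth

section sizes

theorem sizeMM_one (K : Type) [Field K] : 1 ≤ sizeMM K 1 := by
  classical
  obtain ⟨C, hC, hs⟩ := exists_circuit_MM K 1
  have h := Pool.Agent.H88R3.MM.circuit_A C hC
  rw [← hs]
  by_contra hcon
  have h0 : C.size = 0 := by omega
  have h1 : IsEmpty {g : Fin C.nodes // C.IsNonscalar g} := by
    refine ⟨fun g => ?_⟩
    obtain ⟨i, j, hg, _⟩ := g.2
    have : Nonempty {k : Fin C.nodes //
      (∃ i j, C.gate k = Gate.add i j) ∨ ∃ i j, C.gate k = Gate.mul i j} :=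
      ⟨⟨g.1, Or.inr ⟨i, j, hg⟩⟩⟩
    have h2 : 0 < C.size := by
      unfold Circuit.size
      exact Nat.card_pos
    omega
  rw [Finset.univ_eq_empty, Finset.sum_empty] at h
  norm_num at h

theorem exists_sumsMM (K : Type) [Field K] (m : ℕ) :
    ∃ C : Circuit K ((Fin m × Fin m) ⊕ (Fin m × Fin m)), ComputesMM C ∧
      mixedSums C = sumsMM K m := by
  obtain ⟨C, hC, -⟩ := exists_circuit_MM K m
  exact Nat.sInf_mem (s := {s | ∃ C : Circuit K ((Fin m × Fin m) ⊕ (Fin m × Fin m)),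
    ComputesMM C ∧ mixedSums C = s}) ⟨mixedSums C, C, hC, rfl⟩

theorem sumsMM_le_size (K : Type) [Field K] (m : ℕ) : sumsMM K m ≤ sizeMM K m := by
  obtain ⟨C, hC, hs⟩ := exists_circuit_MM K m
  rw [← hs]
  exact (Nat.sInf_le (s := {s | ∃ C : Circuit K ((Fin m × Fin m) ⊕ (Fin m × Fin m)),
    ComputesMM C ∧ mixedSums C = s}) ⟨C, hC, rfl⟩).trans (mixedSums_le_size C)

theorem trank_le_sumsMM (K : Type) [Field K] (m : ℕ) :
    trank (AlgebraicClosure K) m m m ≤ sumsMM K m + m ^ 2 := by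
  obtain ⟨C, hC, hs⟩ := exists_sumsMM K m
  rw [← hs, pow_two]
  exact trank_le (rank_of_circuit_closure C hC)

variable {K : Type} [Field K]

theorem exists_sumsKnown {m : ℕ} (B : Matrix (Fin m) (Fin m) K) :
    ∃ C : Circuit K (Fin m × Fin m), ComputesKnown C B ∧ properSums C = sumsKnown m B := by
  obtain ⟨C, hC, -⟩ := exists_circuit_known B
  exact Nat.sInf_mem (s := {s | ∃ C : Circuit K (Fin m × Fin m),
    ComputesKnown C B ∧ properSums C = s}) ⟨properSums C, C, hC, rfl⟩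

theorem sumsKnown_le_size {m : ℕ} (B : Matrix (Fin m) (Fin m) K) :
    sumsKnown m B ≤ sizeMM K m := by
  obtain ⟨C, hC, hs⟩ := exists_circuit_known B
  refine le_trans ?_ (sizeKnown_le_sizeMM B)
  rw [← hs]
  exact (Nat.sInf_le (s := {s | ∃ C : Circuit K (Fin m × Fin m),
    ComputesKnown C B ∧ properSums C = s}) ⟨C, hC, rfl⟩).trans (properSums_le_size C)

theorem trank_le_sumsKnown {k : Type} [Field k] [CharZero k] [Algebra k K] {m : ℕ}
    (B : Matrix (Fin m) (Fin m) K)
    (hB : AlgebraicIndependent k (fun x : Fin m × Fin m => B x.1 x.2)) :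
    trank K m m m ≤ sumsKnown m B + m ^ 2 := by
  obtain ⟨C, hC, hs⟩ := exists_sumsKnown B
  rw [← hs, pow_two]
  exact trank_le (rank_of_known B hB C hC)

end sizes

instance (F : Type) [Field F] : Infinite (AlgebraicClosure F) := IsAlgClosed.instInfinite

/-- all statements about the number of sums -/
theorem sums_part (F : Type) [Field F] :
    growth (sumsMM F) = omega F ∧ growth (sizeMM F) = omega F ∧
    (Superlinear (sizeMM F) ↔ ∃ α : ℝ, 1 < α ∧ ∃ c : ℝ, 0 < c ∧
      ∀ m : ℕ, 2 ≤ m → c * (((m : ℝ) ^ 2) ^ α) ≤ sumsMM F m) ∧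
    ∀ τ D : ℝ, {m : ℕ | (sumsMM F m : ℝ) ≤ D * (m : ℝ) ^ τ}.Infinite → omega F ≤ τ := by
  rw [omega_eq, ← omegaMM_closure F]
  have hup : ∀ τ, omegaMM (AlgebraicClosure F) < τ →
      ∃ D : ℝ, ∀ m : ℕ, (sizeMM F m : ℝ) ≤ D * (m : ℝ) ^ τ := by
    intro τ hτ
    rw [omegaMM_closure] at hτ
    exact sizeMM_upper hτ
  refine ⟨growth_part _ _ (trank_le_sumsMM F) (sumsMM_le_size F) hup,
    growth_part _ _ (fun m => (trank_le_sumsMM F m).trans
      (Nat.add_le_add_right (sumsMM_le_size F m) _)) (fun m => le_rfl) hup,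
    superlinear_part _ _ (trank_le_sumsMM F) (sumsMM_le_size F) hup (sizeMM_one F),
    fun τ D h => infinite_part _ (trank_le_sumsMM F) h⟩

/-- the explicit matrices -/
theorem explicit_sums :
    growth (fun m => sumsKnown m (expMat m)) = omega ℂ ∧
    (Superlinear (sizeMM ℂ) ↔ ∃ α : ℝ, 1 < α ∧ ∃ c : ℝ, 0 < c ∧
      ∀ m : ℕ, 2 ≤ m → c * (((m : ℝ) ^ 2) ^ α) ≤ sumsKnown m (expMat m)) := by
  have hf : ∀ m, trank ℂ m m m ≤ sumsKnown m (expMat m) + m ^ 2 := fun m =>
    trank_le_sumsKnown (expMat m) (algebraicIndependent_expMat m)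
  rw [omega_eq]
  exact ⟨growth_part (fun m => sumsKnown m (expMat m)) _ hf (fun m => sumsKnown_le_size _)
      (fun τ hτ => sizeMM_upper hτ),
    superlinear_part (fun m => sumsKnown m (expMat m)) _ hf (fun m => sumsKnown_le_size _)
      (fun τ hτ => sizeMM_upper hτ) (sizeMM_one ℂ)⟩

theorem two_all (ε : ℝ) (hε : 0 < ε) : ∃ m₀ : ℕ, ∀ (F : Type) [Field F] (m : ℕ)
      (C : Circuit F ((Fin m × Fin m) ⊕ (Fin m × Fin m))), m₀ ≤ m → ComputesMM C →
        (2 - ε) * (m : ℝ) ^ 2 ≤ mixedSums C := by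
  obtain ⟨m₀, h⟩ := trank_eventually ε hε
  refine ⟨m₀, fun F _ m C hm hC => ?_⟩
  have h1 := h (AlgebraicClosure F) m hm
  have h2 : (trank (AlgebraicClosure F) m m m : ℝ) ≤ mixedSums C + (m : ℝ) ^ 2 := by
    have := trank_le (rank_of_circuit_closure C hC)
    rw [← pow_two] at this
    exact_mod_cast this
  linarith

end Pool.Agent.N590.MS
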