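import Pool.Agent.N590.MS.Circ

set_option autoImplicit false

/-!
# The two situations: generic matrices, and a known factor
-/

namespace Pool.Agent.N590.MS

open Pool.Agent.H53R3 Pool.Agent.W956.KF Pool.Agent.H522R2 MvPolynomial

section generic

variable (F : Type) [Field F] (m n p : ℕ)

theorem exists_partials : ∃ (dA : Fin m × Fin n → RatField F m n p → RatField F m n p)
    (dB : Fin n × Fin p → RatField F m n p → RatField F m n p),
    Partials F (varA F m n p) (varB F m n p) dA dB := by
  classical
  choose D hD hc hx using exists_partial (K := F) (σ := (Fin m × Fin n) ⊕ (Fin n × Fin p))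
  refine ⟨fun x => D (Sum.inl x), fun y => D (Sum.inr y), fun x => hD _, fun y => hD _, ?_,
    fun x c => hc _ c, fun y c => hc _ c, ?_, ?_, ?_, ?_⟩
  · intro x y z
    have h := der_eq_zero (IsDer.commutator (hD (Sum.inl x)) (hD (Sum.inr y))) ?_ ?_ z
    · exact sub_eq_zero.1 h
    · intro c
      simp only [hc, (hD _).zero, sub_zero]
    · intro j
      simp only [hx]
      split_ifs <;> simp [(hD _).zero, (hD _).one]
  · intro x x'
    have := hx (Sum.inl x) (Sum.inl x')
    simp only [Sum.inl.injEq, eq_comm (a := x')] at this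
    exact this
  · intro y y'
    have := hx (Sum.inr y) (Sum.inr y')
    simp only [Sum.inr.injEq, eq_comm (a := y')] at this
    exact this
  · intro x y
    have := hx (Sum.inl x) (Sum.inr y)
    rw [if_neg (by simp)] at this
    exact this
  · intro y x
    have := hx (Sum.inr y) (Sum.inl x)
    rw [if_neg (by simp)] at this
    exact this

variable {F m n p}

theorem fnOf_of_adjoin {dA : Fin m × Fin n → RatField F m n p → RatField F m n p}
    {dB : Fin n × Fin p → RatField F m n p → RatField F m n p}
    (h : Partials F (varA F m n p) (varB F m n p) dA dB) {w z : RatField F m n p}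
    (hz : z ∈ IntermediateField.adjoin F {w}) : FnOf dA dB w z := by
  induction hz using IntermediateField.adjoin_induction with
  | mem x hx =>
    rw [Set.mem_singleton_iff] at hx
    subst hx
    exact ⟨1, fun _ => (one_mul _).symm, fun _ => (one_mul _).symm⟩
  | algebraMap c =>
    refine ⟨0, fun x => ?_, fun y => ?_⟩
    · rw [h.constA, zero_mul]
    · rw [h.constB, zero_mul]
  | add x y _ _ hx hy =>
    obtain ⟨g, g1, g2⟩ := hx
    obtain ⟨g', g1', g2'⟩ := hy
    refine ⟨g + g', fun x => ?_, fun y => ?_⟩
    · rw [(h.derA x).add, g1, g1']; ring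
    · rw [(h.derB y).add, g2, g2']; ring
  | inv x _ hx =>
    obtain ⟨g, g1, g2⟩ := hx
    refine ⟨-(x⁻¹ ^ 2 * g), fun x' => ?_, fun y' => ?_⟩
    · rw [IsDer.inv' (h.derA x'), g1]; ring
    · rw [IsDer.inv' (h.derB y'), g2]; ring
  | mul x y _ _ hx hy =>
    obtain ⟨g, g1, g2⟩ := hx
    obtain ⟨g', g1', g2'⟩ := hy
    refine ⟨g * y + x * g', fun x' => ?_, fun y' => ?_⟩
    · rw [(h.derA x').mul, g1, g1']; ring
    · rw [(h.derB y').mul, g2, g2']; ring

theorem killed_of_adjoin {D : RatField F m n p → RatField F m n p} (hD : IsDer D)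
    (hc : ∀ c : F, D (algebraMap F _ c) = 0) {S : Set (RatField F m n p)}
    (hS : ∀ s ∈ S, D s = 0) {z : RatField F m n p} (hz : z ∈ IntermediateField.adjoin F S) :
    D z = 0 := by
  induction hz using IntermediateField.adjoin_induction with
  | mem x hx => exact hS x hx
  | algebraMap c => exact hc c
  | add x y _ _ hx hy => rw [hD.add, hx, hy, add_zero]
  | inv x _ hx => rw [IsDer.inv' hD, hx]; ring
  | mul x y _ _ hx hy => rw [hD.mul, hx, hy]; ring

theorem freeRat_subset {dA : Fin m × Fin n → RatField F m n p → RatField F m n p}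
    {dB : Fin n × Fin p → RatField F m n p → RatField F m n p}
    (h : Partials F (varA F m n p) (varB F m n p) dA dB) :
    FreeRat F m n p ⊆ OneSided dA dB := by
  rintro z (hz | hz)
  · right
    intro y
    refine killed_of_adjoin (h.derB y) (h.constB y) ?_ hz
    rintro _ ⟨x, rfl⟩
    exact h.ba y x
  · left
    intro x
    refine killed_of_adjoin (h.derA x) (h.constA x) ?_ hz
    rintro _ ⟨y, rfl⟩
    exact h.ab x y

theorem IsRun.mono {F E : Type*} [Field F] [Field E] [Algebra F E] {Fn Fn' : E → E → Prop}
    {S S' : Set E} {z : ℕ → E} {t : ℕ} (h : IsRun F Fn S z t) (hS : S ⊆ S')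
    (hFn : ∀ w z, Fn w z → Fn' w z) : IsRun F Fn' S' z t := by
  intro i hi
  obtain ⟨w, hw, hz⟩ := h i hi
  have hA : Avail S z i ⊆ Avail S' z i := Set.union_subset_union_left _ hS
  refine ⟨w, ?_, hFn _ _ hz⟩
  rcases hw with hw | hw
  · exact Or.inl (Submodule.span_mono hA hw)
  · right
    refine Submonoid.closure_mono ?_ hw
    exact Set.union_subset_union hA fun x hx => hA hx

theorem rank_of_inSteps [Infinite F] {t : ℕ} (h : InSteps F m n p t) : RankLE F m n p t := by
  obtain ⟨z, hz, hout⟩ := h
  obtain ⟨dA, dB, hP⟩ := exists_partials F m n p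
  refine rank_descend (run_rank hP (hz.mono (freeRat_subset hP) fun w z => fnOf_of_adjoin hP) ?_)
  intro i k
  refine Submodule.span_mono ?_ (hout i k)
  exact Set.union_subset_union_left _ (freeRat_subset hP)

theorem inSteps_of_rank {r : ℕ} (h : RankLE F m n p r) : InSteps F m n p r := by
  obtain ⟨U, V, W, h⟩ := h
  let fA : Fin r → RatField F m n p := fun l => ∑ x : Fin m × Fin n, U l x.1 x.2 • varA F m n p x
  let fB : Fin r → RatField F m n p := fun l => ∑ y : Fin n × Fin p, V l y.1 y.2 • varB F m n p y
  have hfA : ∀ l, fA l ∈ FreeRat F m n p := by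
    intro l
    left
    refine sum_mem fun x _ => IntermediateField.smul_mem _ ?_
    exact IntermediateField.subset_adjoin _ _ ⟨x, rfl⟩
  have hfB : ∀ l, fB l ∈ FreeRat F m n p := by
    intro l
    right
    refine sum_mem fun x _ => IntermediateField.smul_mem _ ?_
    exact IntermediateField.subset_adjoin _ _ ⟨x, rfl⟩
  refine ⟨fun l => if hl : l < r then fA ⟨l, hl⟩ * fB ⟨l, hl⟩ else 0, ?_, ?_⟩
  · intro i hi
    refine ⟨fA ⟨i, hi⟩ * fB ⟨i, hi⟩, Or.inr ?_, ?_⟩
    · exact mul_mem (Submonoid.subset_closure (Or.inl (Or.inl (hfA _))))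
        (Submonoid.subset_closure (Or.inl (Or.inl (hfB _))))
    · simp only [dif_pos hi]
      exact IntermediateField.subset_adjoin _ _ rfl
  · intro i k
    have e : ∑ j, varA F m n p (i, j) * varB F m n p (j, k) =
        ∑ l : Fin r, W l i k • (fA l * fB l) := by
      have e1 : ∀ l, W l i k • (fA l * fB l) = ∑ x : Fin m × Fin n, ∑ y : Fin n × Fin p,
          (U l x.1 x.2 * V l y.1 y.2 * W l i k) • (varA F m n p x * varB F m n p y) := by
        intro l
        simp only [fA, fB, Finset.sum_mul_sum, Finset.smul_sum]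
        refine Finset.sum_congr rfl fun x _ => Finset.sum_congr rfl fun y _ => ?_
        simp only [Algebra.smul_def, map_mul]
        ring
      simp only [e1]
      rw [Finset.sum_comm]
      have e2 : ∀ x : Fin m × Fin n, (∑ l : Fin r, ∑ y : Fin n × Fin p,
          (U l x.1 x.2 * V l y.1 y.2 * W l i k) • (varA F m n p x * varB F m n p y)) =
          ∑ y : Fin n × Fin p, (if x.1 = i ∧ x.2 = y.1 ∧ y.2 = k then (1 : F) else 0) •
            (varA F m n p x * varB F m n p y) := by
        intro x
        rw [Finset.sum_comm]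
        refine Finset.sum_congr rfl fun y _ => ?_
        rw [← Finset.sum_smul, h]
      simp only [e2]
      rw [Fintype.sum_prod_type, Finset.sum_eq_single i]
      · refine Finset.sum_congr rfl fun j _ => ?_
        rw [Finset.sum_eq_single (j, k)]
        · simp
        · rintro ⟨j', k'⟩ _ hne
          rw [if_neg, zero_smul]
          rintro ⟨_, h2, h3⟩
          exact hne (by rw [Prod.mk.injEq]; exact ⟨h2.symm, h3⟩)
        · simp
      · intro i' _ hi'
        refine Finset.sum_eq_zero fun j _ => Finset.sum_eq_zero fun y _ => ?_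
        rw [if_neg (fun h0 => hi' h0.1), zero_smul]
      · simp
    rw [e]
    refine Submodule.sum_mem _ fun l _ => Submodule.smul_mem _ _ (Submodule.subset_span ?_)
    right
    exact ⟨l, l.2, by simp only [dif_pos l.2, Fin.eta]⟩

/-- **The rank is the least number of steps.** -/
theorem isLeast_steps [Infinite F] : IsLeast {t | InSteps F m n p t} (trank F m n p) :=
  ⟨inSteps_of_rank (rankLE_trank F m n p), fun _ ht => trank_le (rank_of_inSteps ht)⟩

theorem card_cnt_le {dA : Fin m × Fin n → RatField F m n p → RatField F m n p}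
    {dB : Fin n × Fin p → RatField F m n p → RatField F m n p}
    (h : Partials F (varA F m n p) (varB F m n p) dA dB)
    (C : Circuit F ((Fin m × Fin n) ⊕ (Fin n × Fin p))) :
    Nat.card (Cnt C dA dB) ≤ mixedSums C := by
  unfold mixedSums
  refine Nat.card_le_card_of_injective (fun g : Cnt C dA dB => (⟨g.1, g.2.1, ?_, ?_⟩ :
    {g : Fin C.nodes // (∃ i j, C.gate g = Gate.add i j) ∧
    (∃ x, Sum.inl x ∈ (C.poly g).vars) ∧ ∃ y, Sum.inr y ∈ (C.poly g).vars})) ?_
  · by_contra hcon
    push Not at hcon
    refine g.2.2 (Or.inl fun x => der_vars (h.derA x) (h.constA x) _ ?_)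
    rintro (i | i) hi
    · exact absurd hi (hcon i)
    · exact h.ab x i
  · by_contra hcon
    push Not at hcon
    refine g.2.2 (Or.inr fun y => der_vars (h.derB y) (h.constB y) _ ?_)
    rintro (i | i) hi
    · exact h.ba y i
    · exact absurd hi (hcon i)
  · intro x y hxy
    simp only [Subtype.mk.injEq] at hxy
    exact Subtype.ext hxy

theorem entryRect_rat (i : Fin m) (k : Fin p) :
    algebraMap (MvPolynomial ((Fin m × Fin n) ⊕ (Fin n × Fin p)) F) (RatField F m n p)
      (entryRect F i k) =
      ∑ j, varA F m n p (i, j) * varB F m n p (j, k) := by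
  unfold entryRect
  rw [map_sum]
  simp only [map_mul]
  rfl

theorem rank_of_circuit_rat (C : Circuit F ((Fin m × Fin n) ⊕ (Fin n × Fin p)))
    (hC : ComputesRect C) : RankLE (RatField F m n p) m n p (mixedSums C + m * p) := by
  obtain ⟨dA, dB, hP⟩ := exists_partials F m n p
  refine (circ_rank hP C ?_ ?_ ?_).mono (Nat.add_le_add_right (card_cnt_le hP C) _)
  · rintro (x | y)
    · exact Or.inr fun y => hP.ba y x
    · exact Or.inl fun x => hP.ab x y
  · intro c
    exact Or.inl fun x => hP.constA x c
  · intro i k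
    obtain ⟨v, hv⟩ := hC i k
    refine ⟨v, ?_⟩
    unfold rat
    rw [hv, entryRect_rat]

theorem rank_of_circuit [Infinite F] (C : Circuit F ((Fin m × Fin n) ⊕ (Fin n × Fin p)))
    (hC : ComputesRect C) : RankLE F m n p (mixedSums C + m * p) :=
  rank_descend (rank_of_circuit_rat C hC)

end generic

end Pool.Agent.N590.MS
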