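import Pool.Agent.N590.MS.Inst
import Pool.Agent.W956.KF.Part1

set_option autoImplicit false

/-!
# Finite fields, and the situation with a known factor
-/

namespace Pool.Agent.N590.MS

open Pool.Agent.H53R3 Pool.Agent.W956.KF Pool.Agent.H522R2 MvPolynomial

theorem RankLE.mapHom {K L : Type*} [Field K] [Field L] (f : K →+* L) {m n p r : ℕ}
    (h : RankLE K m n p r) : RankLE L m n p r := by
  obtain ⟨U, V, W, h⟩ := h
  refine ⟨fun l => (U l).map f, fun l => (V l).map f, fun l => (W l).map f, ?_⟩
  intro i i' j j' k k'
  have := congrArg f (h i i' j j' k k')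
  rw [map_sum] at this
  simp only [map_mul] at this
  simp only [Matrix.map_apply, this]
  split_ifs <;> simp

theorem rank_of_circuit_closure {F : Type} [Field F] {m n p : ℕ}
    (C : Circuit F ((Fin m × Fin n) ⊕ (Fin n × Fin p)))
    (hC : ComputesRect C) : RankLE (AlgebraicClosure F) m n p (mixedSums C + m * p) := by
  let g : MvPolynomial ((Fin m × Fin n) ⊕ (Fin n × Fin p)) F →+*
      RatField (AlgebraicClosure F) m n p :=
    (algebraMap (MvPolynomial ((Fin m × Fin n) ⊕ (Fin n × Fin p)) (AlgebraicClosure F))
      (RatField (AlgebraicClosure F) m n p)).comp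
      (MvPolynomial.map (algebraMap F (AlgebraicClosure F)))
  have hg : Function.Injective g := by
    intro x y hxy
    refine MvPolynomial.map_injective _ (algebraMap F (AlgebraicClosure F)).injective ?_
    exact IsFractionRing.injective
      (MvPolynomial ((Fin m × Fin n) ⊕ (Fin n × Fin p)) (AlgebraicClosure F))
      (RatField (AlgebraicClosure F) m n p) hxy
  let f : RatField F m n p →+* RatField (AlgebraicClosure F) m n p := IsFractionRing.lift hg
  have : Infinite (AlgebraicClosure F) := IsAlgClosed.instInfinite
  exact rank_descend (RankLE.mapHom f (rank_of_circuit_rat C hC))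

section known

variable {k K : Type} [Field k] [CharZero k] [Field K] [Algebra k K] {m n p : ℕ}

theorem exists_partials_known (B : Matrix (Fin n) (Fin p) K)
    (hB : AlgebraicIndependent k (fun x : Fin n × Fin p => B x.1 x.2)) :
    ∃ (dA : Fin m × Fin n → FractionRing (MvPolynomial (Fin m × Fin n) K) →
        FractionRing (MvPolynomial (Fin m × Fin n) K))
      (dB : Fin n × Fin p → FractionRing (MvPolynomial (Fin m × Fin n) K) →
        FractionRing (MvPolynomial (Fin m × Fin n) K)),
      Partials k (gz K (Fin m × Fin n)) (fun y : Fin n × Fin p =>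
        algebraMap K (FractionRing (MvPolynomial (Fin m × Fin n) K)) (B y.1 y.2)) dA dB ∧
      ∀ x (c : K), dA x (algebraMap K _ c) = 0 := by
  classical
  choose D hD hc hx using exists_partial (K := K) (σ := Fin m × Fin n)
  choose D0 h0 h0c h0x using exists_der (k := k) (F := K) hB
  have hex := fun y => exists_coeffDer (σ := Fin m × Fin n) (h0 y)
  choose D' hD' hc' hx' using hex
  have htow : ∀ c : k, algebraMap k (FractionRing (MvPolynomial (Fin m × Fin n) K)) c =
      algebraMap K _ (algebraMap k K c) := fun c =>
    IsScalarTower.algebraMap_apply k K (FractionRing (MvPolynomial (Fin m × Fin n) K)) c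
  refine ⟨D, D', ⟨hD, hD', ?_, ?_, ?_, ?_, ?_, ?_, ?_⟩, hc⟩
  · intro x y z
    have h := der_eq_zero (IsDer.commutator (hD x) (hD' y)) ?_ ?_ z
    · exact sub_eq_zero.1 h
    · intro c
      simp only [hc', hc, (hD' _).zero, sub_zero]
    · intro j
      simp only [hx', hx, (hD _).zero]
      split_ifs <;> simp [(hD' _).zero, (hD' _).one]
  · intro x c
    rw [htow, hc]
  · intro y c
    rw [htow, hc', h0c, map_zero]
  · intro x x'
    rw [hx]
    by_cases h : x' = x
    · rw [if_pos h, if_pos h.symm]
    · rw [if_neg h, if_neg (fun h' => h h'.symm)]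
  · intro y y'
    rw [hc', h0x]
    by_cases h : y' = y
    · rw [if_pos h, if_pos h.symm, map_one]
    · rw [if_neg h, if_neg (fun h' => h h'.symm), map_zero]
  · intro x y
    exact hc x _
  · intro y x
    exact hx' y x

theorem target_rat (B : Matrix (Fin n) (Fin p) K) (i : Fin m) (k' : Fin p) :
    algebraMap (MvPolynomial (Fin m × Fin n) K) (FractionRing (MvPolynomial (Fin m × Fin n) K))
      (target B i k') = ∑ j, gz K (Fin m × Fin n) (i, j) *
        algebraMap K (FractionRing (MvPolynomial (Fin m × Fin n) K)) (B j k') := by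
  unfold target
  rw [map_sum]
  refine Finset.sum_congr rfl fun j _ => ?_
  rw [map_mul, ← aM_eq, mul_comm]
  rfl

theorem rank_of_known (B : Matrix (Fin n) (Fin p) K)
    (hB : AlgebraicIndependent k (fun x : Fin n × Fin p => B x.1 x.2))
    (C : Circuit K (Fin m × Fin n)) (hC : ComputesKnown C B) :
    RankLE K m n p (properSums C + m * p) := by
  have : CharZero K := charZero_of_injective_algebraMap (algebraMap k K).injective
  obtain ⟨dA, dB, hP, hK⟩ := exists_partials_known (m := m) B hB
  have h1 := circ_rank hP C (fun x => Or.inr fun y => hP.ba y x) (fun c => Or.inl fun x => hK x c)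
    ?_
  · refine rank_descend (h1.mono (Nat.add_le_add_right ?_ _))
    unfold properSums
    refine Nat.card_le_card_of_injective (fun g : Cnt C dA dB => (⟨g.1, g.2.1, ?_⟩ :
      {g : Fin C.nodes // (∃ i j, C.gate g = Gate.add i j) ∧
        ∀ c : K, C.poly g ≠ MvPolynomial.C c})) ?_
    · intro c hc
      refine g.2.2 (Or.inl fun x => ?_)
      unfold rat
      rw [hc, ← aM_eq, hK]
    · intro x y hxy
      simp only [Subtype.mk.injEq] at hxy
      exact Subtype.ext hxy
  · intro i k'
    obtain ⟨v, hv⟩ := hC i k'
    refine ⟨v, ?_⟩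
    unfold rat
    rw [hv, target_rat]

end known

end Pool.Agent.N590.MS
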